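import Pool.Agent.Chern.DoubleS

/-!
# MP_23213a_al: every product of two Chernikov groups is a Chernikov group

Definitions (`Pool/Agent/Chern/Defs.lean`, `Defs2.lean`): `IsChernikov` is the property of the frozen
statements `S00939` and `S00940`, and `cj h B` is the conjugate `h B h⁻¹`.

Outline of the proof.  Let `P`, `Q` be divisible abelian Chernikov groups such that `H` is the union
of finitely many double cosets `P g Q` and `P ∩ g Q g⁻¹` is finite for all `g`.  The claim is that
`H` is a finite extension of a divisible abelian Chernikov group; the product of two Chernikov groups
is reduced to this case by factoring out the centre of the subgroup generated by the divisible parts.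

1. A counterexample with minimal ranks and number of double cosets has trivial centre and no proper
subgroups of finite index, and its proper subgroups above `P` or `Q` are Chernikov groups.  Replacing
`P` and `Q` by the divisible parts `A`, `B` of the centralisers of their elements one gets trivial
intersection subgroups, with `⟨P, h Q h⁻¹⟩ = H` for all `h`.

2. If `H` is locally finite, comparing numbers of double cosets in the normalisers of finite subgroups
`⟨Pₙ, h Qₙ h⁻¹⟩` gives a contradiction.

3. If not, a minimal one of the infinite subgroups `⟨Pₙ, h Qₙ h⁻¹⟩` is normal in `H`, and `H` has a
finitely generated normal subgroup `T` without proper subgroups of finite index and with trivial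
centraliser.

4. The colouring of `H` by the double cosets and topological dynamics (minimal sets for the
translations by `H` and by `A`), with the computation of Ito, give an element `z` outside of the
normaliser of `A` and a notion of good finite subsets `W` of `A`: the conjugates `w z w⁻¹`, `w ∈ W`,
of a good set commute, good sets are invariant under translations, and for every good set `W` there is
a finite colouring of `A` such that `W ∪ a b⁻¹ W` is good whenever `a` and `b` have the same colour.

5. Along a chain `t_0, ..., t_n` of elements of `A` such that the conjugates of `z` by the `t_j`
generate a group above `T`, iterated commutators give an element different from `1` which commutes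
with all conjugates `t_j z t_j⁻¹`, hence with `T`, a contradiction.
-/

namespace Pool.Agent.Results.MP_23213a_al.ChernikovProduct

open Pool.Agent.Chern

universe u

/-- Every product of two Chernikov groups is a Chernikov group.  More generally, a group which is the
union of finitely many double cosets `A s B` of Chernikov subgroups, such that `A` has finite
intersections with all conjugates of `B`, is a Chernikov group. -/
theorem result :
    (∀ {G : Type u} [Group G] (A B : Subgroup G), IsChernikov A → IsChernikov B →
      (∀ g : G, ∃ a ∈ A, ∃ b ∈ B, a * b = g) → IsChernikov G) ∧
    (∀ {H : Type u} [Group H] (A B : Subgroup H), IsChernikov A → IsChernikov B →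
      (∃ S : Finset H, ∀ h : H, ∃ s ∈ S, ∃ a ∈ A, ∃ b ∈ B, h = a * s * b) →
      (∀ h : H, ((A ⊓ cj h B : Subgroup H) : Set H).Finite) → IsChernikov H) :=
  ⟨fun A B hA hB h => chernikov_of_prod A B hA hB h, fun A B hA hB hS hf => chernikov_of_fdc A B hA hB hS hf⟩

end Pool.Agent.Results.MP_23213a_al.ChernikovProduct
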